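import Mathlib
import Pool.Agent.R989.HT.E

/-!
# The spectrum of a hypercyclic Toeplitz operator `γ S^* + T_φ` meets the open unit disc
-/

set_option autoImplicit false

open Complex Metric Set Filter

namespace Pool.Agent.Results.MP_895317_an.SpectrumMeetsDisc

open Pool.Agent.R989.HT Pool.Agent.Helper203.Hardy

/-- For `γ : ℂ` and every bounded analytic `φ` on the unit disc there is exactly one bounded operator
`T` on `H²` with `T f = φ f + γ S^* f`, and if `T` is hypercyclic then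
`𝔻 ∩ σ(T) = 𝔻 ∩ (ℂ \ Φ(𝔻)) ≠ ∅`, where `Φ(z) = γ / z + φ(z)`. -/
theorem result (γ : ℂ) (φ : ℂ → ℂ) (hφ : DifferentiableOn ℂ φ (ball 0 1))
    (hb : ∃ C : ℝ, ∀ z ∈ ball (0 : ℂ) 1, ‖φ z‖ ≤ C) :
    ∃ T : Op, IsToep γ φ T ∧ (∀ T' : Op, IsToep γ φ T' → T' = T) ∧
      (Hyp T →
        ball (0 : ℂ) 1 ∩ spec T = ball (0 : ℂ) 1 ∩ (values γ φ)ᶜ ∧
        (ball (0 : ℂ) 1 ∩ (values γ φ)ᶜ).Nonempty) :=
  main γ φ hφ hb

end Pool.Agent.Results.MP_895317_an.SpectrumMeetsDisc
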